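import Mathlib

open scoped ENNReal Classical

namespace Pool.Agent.Results.MP_baa74b_lc.Strict

/-- a `(μ+1)` memory-restricted black-box algorithm on `S` -/
structure Alg (S : Type) (μ : ℕ) where
  init : PMF (Fin μ → S)
  step : Multiset (S × ℝ) → PMF S
  rem : Multiset (S × ℝ) → PMF (S × ℝ)
  rem_mem : ∀ Y, Y ≠ 0 → ∀ r ∈ (rem Y).support, r ∈ Y

variable {S : Type} {μ : ℕ}

/-- `y` is a maximiser of `f` -/
def IsOpt (f : S → ℝ) (y : S) : Prop := ∀ z, f z ≤ f y

/-- the multiset of the pairs `(x i, f (x i))` -/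
def mem {n : ℕ} (f : S → ℝ) (x : Fin n → S) : Multiset (S × ℝ) := ∑ i, {(x i, f (x i))}

/-- probability that the next `k` rounds from memory `X` query no maximiser -/
noncomputable def miss (A : Alg S μ) (f : S → ℝ) : ℕ → Multiset (S × ℝ) → ℝ≥0∞
  | 0, _ => 1
  | k + 1, X => ∑' y, A.step X y * if IsOpt f y then 0 else
      ∑' r, A.rem ((y, f y) ::ₘ X) r * miss A f k (((y, f y) ::ₘ X).erase r)

/-- probability that the first `m` queries contain no maximiser, that is `T > m` -/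
noncomputable def surv (A : Alg S μ) (f : S → ℝ) (m : ℕ) : ℝ≥0∞ :=
  ∑' x, A.init x * if ∀ i : Fin μ, (i : ℕ) < m → ¬ IsOpt f (x i) then miss A f (m - μ) (mem f x)
    else 0

/-- the expected number of queries, as the sum of the probabilities of `T > m` -/
noncomputable def ET (A : Alg S μ) (f : S → ℝ) : ℝ≥0∞ := ∑' m, surv A f m

/-- the memory-restricted black-box complexity -/
noncomputable def C (μ : ℕ) (F : Set (S → ℝ)) : ℝ≥0∞ := ⨅ A : Alg S μ, ⨆ f ∈ F, ET A f

noncomputable def er (Y : Multiset (S × ℝ)) (r : S × ℝ) : Multiset (S × ℝ) := Y.erase r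

lemma er_cons (Y : Multiset (S × ℝ)) (r : S × ℝ) : er (r ::ₘ Y) r = Y :=
  Multiset.erase_cons_head _ _

lemma avg_le {α : Type} (p : PMF α) (g : α → ℝ≥0∞) (c : ℝ≥0∞) (h : ∀ a, p a ≠ 0 → g a ≤ c) :
    ∑' a, p a * g a ≤ c := by
  calc _ ≤ ∑' a, p a * c := ENNReal.tsum_le_tsum fun a => by
        by_cases h0 : p a = 0
        · simp [h0]
        · gcongr; exact h a h0
    _ = c := by rw [ENNReal.tsum_mul_right, p.tsum_coe, one_mul]

lemma avg_const {α : Type} (p : PMF α) (c : ℝ≥0∞) : ∑' a, p a * c = c := by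
  rw [ENNReal.tsum_mul_right, p.tsum_coe, one_mul]

lemma miss_succ (A : Alg S μ) (f : S → ℝ) (k : ℕ) : ∀ X, miss A f (k + 1) X ≤ miss A f k X := by
  induction k with
  | zero =>
    intro X
    refine avg_le _ _ _ fun y _ => ?_
    split_ifs
    · exact zero_le
    · exact avg_le _ _ _ fun _ _ => le_rfl
  | succ k ih =>
    intro X
    rw [miss, miss]
    refine ENNReal.tsum_le_tsum fun y => ?_
    gcongr
    split_ifs
    · rfl
    · exact ENNReal.tsum_le_tsum fun r => by gcongr; exact ih _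

lemma miss_anti (A : Alg S μ) (f : S → ℝ) (X) : Antitone fun k => miss A f k X :=
  antitone_nat_of_succ_le fun k => miss_succ A f k X

lemma surv_anti (A : Alg S μ) (f : S → ℝ) : Antitone (surv A f) := by
  intro m n h
  refine ENNReal.tsum_le_tsum fun x => ?_
  gcongr
  split_ifs with h1 h2
  · exact miss_anti A f _ (by omega)
  · exact (h2 fun i hi => h1 i (by omega)).elim
  · exact zero_le
  · rfl

lemma surv_le (A : Alg S μ) (f : S → ℝ) (m : ℕ) : surv A f m ≤ 1 := by
  refine avg_le _ _ _ fun x _ => ?_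
  split_ifs
  · exact miss_anti A f _ (Nat.zero_le _)
  · exact zero_le

section
variable {N : ℕ} [NeZero N]

noncomputable def f0 (v : Fin (μ + 1) → ZMod N) : ZMod N ⊕ Fin (μ + 1) → ℝ
  | .inl _ => 0
  | .inr i => -((v i).val : ℝ)

noncomputable def ff (v : Fin (μ + 1) → ZMod N) (y : ZMod N ⊕ Fin (μ + 1)) : ℝ :=
  if y = .inl (∑ i, v i) then 1 else f0 v y

omit [NeZero N] in
lemma opt_iff (v : Fin (μ + 1) → ZMod N) (y) : IsOpt (ff v) y ↔ y = .inl (∑ i, v i) := by
  have h0 : ∀ z, f0 v z ≤ 0 := by rintro (z | z) <;> simp [f0]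
  constructor
  · intro h
    by_contra hy
    have := h (.inl (∑ i, v i))
    simp only [ff, if_true, if_neg hy] at this
    linarith [h0 y]
  · rintro rfl z
    simp only [ff, if_true]
    split_ifs
    · rfl
    · linarith [h0 z]

lemma key (j : Fin (μ + 1)) (φ : (Fin (μ + 1) → ZMod N) → ZMod N → ℝ≥0∞)
    (h1 : ∀ v t, φ (v + Pi.single j t) = φ v) (h2 : ∀ v, ∑ g, φ v g ≤ 1) :
    (N : ℝ≥0∞) * ∑ v, φ v (∑ i, v i) ≤ Fintype.card (Fin (μ + 1) → ZMod N) := by
  have : ∀ t : ZMod N, ∑ v, φ v (∑ i, v i) = ∑ v, φ v (∑ i, v i + t) := by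
    intro t
    rw [← Equiv.sum_comp (Equiv.addRight (Pi.single j t : Fin (μ + 1) → ZMod N))]
    refine Finset.sum_congr rfl fun v _ => ?_
    simp only [Equiv.coe_addRight, h1, Pi.add_apply, Finset.sum_add_distrib]
    simp
  calc (N : ℝ≥0∞) * ∑ v, φ v (∑ i, v i) = ∑ t : ZMod N, ∑ v, φ v (∑ i, v i + t) := by
        simp only [← this]; simp [ZMod.card]
    _ = ∑ v, ∑ g, φ v g := by
        rw [Finset.sum_comm]
        exact Finset.sum_congr rfl fun v _ => Equiv.sum_comp (Equiv.addLeft (∑ i, v i)) (φ v)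
    _ ≤ ∑ _v : Fin (μ + 1) → ZMod N, 1 := Finset.sum_le_sum fun v _ => h2 v
    _ = _ := by simp

omit [NeZero N] in
lemma f0_ind {j : Fin (μ + 1)} {y} (hy : y ≠ .inr j) (v : Fin (μ + 1) → ZMod N) (t : ZMod N) :
    f0 (v + Pi.single j t) y = f0 v y := by
  rcases y with y | i
  · rfl
  · have : i ≠ j := fun h => hy (by rw [h])
    simp [f0, Pi.single_eq_of_ne this]

omit [NeZero N] in
lemma missing (x : Fin μ → ZMod N ⊕ Fin (μ + 1)) : ∃ j, ∀ i, x i ≠ .inr j := by
  by_contra h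
  push Not at h
  choose g hg using h
  have : Function.Injective g := fun a b hab => Sum.inr_injective (by rw [← hg a, hab, hg b])
  have := Fintype.card_le_of_injective g this
  simp at this

omit [NeZero N] in
lemma mem_ind {x : Fin μ → ZMod N ⊕ Fin (μ + 1)} {j} (h : ∀ i, x i ≠ .inr j)
    (v : Fin (μ + 1) → ZMod N) (t : ZMod N) : mem (f0 (v + Pi.single j t)) x = mem (f0 v) x :=
  Finset.sum_congr rfl fun i _ => by rw [f0_ind (h i)]

lemma sum_inl (p : PMF (ZMod N ⊕ Fin (μ + 1))) : ∑ g, p (.inl g) ≤ 1 := by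
  rw [← p.tsum_coe, tsum_fintype, Fintype.sum_sum_type]
  exact le_self_add

lemma key2 (A : Alg (ZMod N ⊕ Fin (μ + 1)) μ) (x : Fin μ → ZMod N ⊕ Fin (μ + 1)) :
    (N : ℝ≥0∞) * ∑ v, A.step (mem (f0 v) x) (.inl (∑ i, v i)) ≤
      Fintype.card (Fin (μ + 1) → ZMod N) := by
  obtain ⟨j, hj⟩ := missing x
  exact key j (fun v g => A.step (mem (f0 v) x) (.inl g))
    (fun v t => by simp only [mem_ind hj]) fun v => sum_inl _

/-- probability that the second round queries `g` after the first queried `y` -/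
noncomputable def psi (A : Alg (ZMod N ⊕ Fin (μ + 1)) μ) (x : Fin μ → ZMod N ⊕ Fin (μ + 1))
    (v : Fin (μ + 1) → ZMod N) (y : ZMod N ⊕ Fin (μ + 1)) (g : ZMod N) : ℝ≥0∞ :=
  ∑' r, A.rem ((y, f0 v y) ::ₘ mem (f0 v) x) r *
    A.step (er ((y, f0 v y) ::ₘ mem (f0 v) x) r) (.inl g)

noncomputable def bad (A : Alg (ZMod N ⊕ Fin (μ + 1)) μ) (x : Fin μ → ZMod N ⊕ Fin (μ + 1))
    (v : Fin (μ + 1) → ZMod N) : ℝ≥0∞ :=
  (∑ i, if x i = .inl (∑ i, v i) then 1 else 0) + A.step (mem (f0 v) x) (.inl (∑ i, v i)) +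
    ∑' y, A.step (mem (f0 v) x) y * psi A x v y (∑ i, v i)

lemma one_round (A : Alg (ZMod N ⊕ Fin (μ + 1)) μ) (v : Fin (μ + 1) → ZMod N) (X) :
    1 ≤ miss A (ff v) 1 X + A.step X (.inl (∑ i, v i)) := by
  have : A.step X (.inl (∑ i, v i)) =
      ∑' y, A.step X y * if y = .inl (∑ i, v i) then 1 else 0 := by
    simp
  rw [this, miss, ← ENNReal.tsum_add, ← avg_const (A.step X) 1]
  refine ENNReal.tsum_le_tsum fun y => ?_
  rw [← mul_add]
  gcongr
  simp only [opt_iff, miss, avg_const]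
  split_ifs <;> simp

lemma cover (A : Alg (ZMod N ⊕ Fin (μ + 1)) μ) (x : Fin μ → ZMod N ⊕ Fin (μ + 1))
    (v : Fin (μ + 1) → ZMod N) :
    1 ≤ (if ∀ i : Fin μ, (i : ℕ) < μ + 2 → ¬ IsOpt (ff v) (x i) then
      miss A (ff v) (μ + 2 - μ) (mem (ff v) x) else 0) + bad A x v := by
  split_ifs with h
  · have hm : mem (ff v) x = mem (f0 v) x := Finset.sum_congr rfl fun i _ => by
      have := h i (by omega)
      rw [opt_iff] at this
      rw [ff, if_neg this]
    rw [show μ + 2 - μ = 1 + 1 by omega, hm, bad, add_assoc, add_left_comm]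
    refine le_add_left ?_
    set X := mem (f0 v) x
    have : A.step X (.inl (∑ i, v i)) =
        ∑' y, A.step X y * if y = .inl (∑ i, v i) then 1 else 0 := by
      simp
    rw [this, miss, ← ENNReal.tsum_add, ← ENNReal.tsum_add]
    refine le_trans (avg_const (A.step X) 1).ge (ENNReal.tsum_le_tsum fun y => ?_)
    rw [← mul_add, ← mul_add]
    gcongr
    simp only [opt_iff]
    split_ifs with hy
    · simp
    · rw [zero_add, psi, ff, if_neg hy, ← ENNReal.tsum_add]
      refine le_trans (avg_const (A.rem ((y, f0 v y) ::ₘ X)) 1).ge (ENNReal.tsum_le_tsum fun r => ?_)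
      rw [← mul_add]
      gcongr
      exact one_round A v _
  · push Not at h
    obtain ⟨i, -, hi⟩ := h
    rw [opt_iff] at hi
    rw [zero_add, bad, add_assoc]
    refine le_add_right ?_
    have := Finset.single_le_sum (f := fun i => if x i = .inl (∑ i, v i) then (1 : ℝ≥0∞) else 0)
      (fun _ _ => zero_le) (Finset.mem_univ i)
    rwa [if_pos hi] at this

lemma bad_sum (A : Alg (ZMod N ⊕ Fin (μ + 1)) μ) (x : Fin μ → ZMod N ⊕ Fin (μ + 1)) :
    (N : ℝ≥0∞) * ∑ v, bad A x v ≤ (2 * μ + 3) * Fintype.card (Fin (μ + 1) → ZMod N) := by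
  obtain ⟨j, hj⟩ := missing x
  set c : ℝ≥0∞ := (Fintype.card (Fin (μ + 1) → ZMod N) : ℝ≥0∞)
  have h1 : (N : ℝ≥0∞) * ∑ v : Fin (μ + 1) → ZMod N,
      (∑ i, if x i = .inl (∑ i, v i) then (1 : ℝ≥0∞) else 0) ≤ μ * c := by
    rw [Finset.sum_comm, Finset.mul_sum]
    refine (Finset.sum_le_card_nsmul _ _ c fun i _ => ?_).trans (by simp)
    refine key j (fun _ g => if x i = .inl g then 1 else 0) (fun _ _ => rfl) fun _ => ?_
    rcases x i with a | a <;> simp
  have hps : ∀ v y, ∑ g, psi A x v y g ≤ 1 := by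
    intro v y
    simp only [psi]
    rw [← Summable.tsum_finsetSum fun _ _ => ENNReal.summable]
    simp only [← Finset.mul_sum]
    exact avg_le _ _ _ fun _ _ => sum_inl _
  have h3 : (N : ℝ≥0∞) * ∑ v : Fin (μ + 1) → ZMod N, ∑' y, A.step (mem (f0 v) x) y *
      (if y = .inr j then 0 else psi A x v y (∑ i, v i)) ≤ c := by
    refine key j (fun v g => ∑' y, A.step (mem (f0 v) x) y *
      (if y = .inr j then 0 else psi A x v y g)) (fun v t => ?_) fun v => ?_
    · funext g
      refine tsum_congr fun y => ?_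
      split_ifs with hy
      · simp
      · simp only [psi, mem_ind hj, f0_ind hy]
    · rw [← Summable.tsum_finsetSum fun _ _ => ENNReal.summable]
      simp only [← Finset.mul_sum]
      refine avg_le _ _ _ fun y _ => ?_
      split_ifs
      · simp
      · exact hps v y
  let z : Fin (μ + 1) → ZMod N ⊕ Fin (μ + 1) := Fin.cons (.inr j) x
  have h4 : ∀ v g, psi A x v (.inr j) g ≤
      ∑ p : Fin (μ + 1), A.step (mem (f0 v) (fun i => z (p.succAbove i))) (.inl g) := by
    intro v g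
    refine avg_le _ _ _ fun r hr => ?_
    have hY : (Sum.inr j, f0 v (.inr j)) ::ₘ mem (f0 v) x = mem (f0 v) z := by
      simp [mem, z, Fin.sum_univ_succ]
    have hr' := A.rem_mem _ Multiset.cons_ne_zero r hr
    rw [hY] at hr' ⊢
    obtain ⟨p, rfl⟩ : ∃ p, r = (z p, f0 v (z p)) := by
      simpa [mem, Multiset.mem_sum] using hr'
    have : er (mem (f0 v) z) (z p, f0 v (z p)) = mem (f0 v) (fun i => z (p.succAbove i)) := by
      rw [mem, Fin.sum_univ_succAbove _ p, Multiset.singleton_add, er_cons]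
      rfl
    rw [this]
    exact Finset.single_le_sum (f := fun p : Fin (μ + 1) =>
      A.step (mem (f0 v) (fun i => z (p.succAbove i))) (.inl g)) (fun _ _ => zero_le)
      (Finset.mem_univ p)
  have h5 : (N : ℝ≥0∞) * ∑ v : Fin (μ + 1) → ZMod N, ∑ p : Fin (μ + 1),
      A.step (mem (f0 v) (fun i => z (p.succAbove i))) (.inl (∑ i, v i)) ≤ (μ + 1) * c := by
    rw [Finset.sum_comm, Finset.mul_sum]
    exact (Finset.sum_le_card_nsmul _ _ c fun p _ => key2 A _).trans (by simp)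
  have h6 : ∀ v, ∑' y, A.step (mem (f0 v) x) y * psi A x v y (∑ i, v i) ≤
      ∑' y, A.step (mem (f0 v) x) y * (if y = .inr j then 0 else psi A x v y (∑ i, v i)) +
      ∑ p : Fin (μ + 1), A.step (mem (f0 v) (fun i => z (p.succAbove i))) (.inl (∑ i, v i)) := by
    intro v
    rw [← avg_const (A.step (mem (f0 v) x)) (∑ p : Fin (μ + 1), _), ← ENNReal.tsum_add]
    refine ENNReal.tsum_le_tsum fun y => ?_
    rw [← mul_add]
    gcongr
    split_ifs with hy
    · rw [hy, zero_add]; exact h4 v _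
    · exact le_self_add
  calc (N : ℝ≥0∞) * ∑ v, bad A x v ≤ μ * c + c + (c + (μ + 1) * c) := by
        simp only [bad, Finset.sum_add_distrib, mul_add]
        refine add_le_add (add_le_add h1 (key2 A x)) (le_trans ?_ (add_le_add h3 h5))
        rw [← mul_add, ← Finset.sum_add_distrib]
        gcongr with v
        exact h6 v
    _ = _ := by ring

lemma lower (A : Alg (ZMod N ⊕ Fin (μ + 1)) μ) (s : ℝ≥0∞) (hs : ∀ v, ET A (ff v) ≤ s) :
    ((μ : ℝ≥0∞) + 3) * N ≤ N * s + (μ + 3) * (2 * μ + 3) := by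
  set c : ℝ≥0∞ := (Fintype.card (Fin (μ + 1) → ZMod N) : ℝ≥0∞) with hc
  have h1 : ∀ v, 1 ≤ surv A (ff v) (μ + 2) + ∑' x, A.init x * bad A x v := by
    intro v
    rw [surv, ← ENNReal.tsum_add]
    refine le_trans (avg_const A.init 1).ge (ENNReal.tsum_le_tsum fun x => ?_)
    rw [← mul_add]
    gcongr
    exact cover A x v
  have h2 : (N : ℝ≥0∞) * ∑ v, ∑' x, A.init x * bad A x v ≤ (2 * μ + 3) * c := by
    rw [← Summable.tsum_finsetSum fun _ _ => ENNReal.summable, ← ENNReal.tsum_mul_left]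
    simp only [← Finset.mul_sum, mul_left_comm (N : ℝ≥0∞)]
    exact avg_le _ _ _ fun x _ => bad_sum A x
  have h3 : ∀ v, ((μ : ℝ≥0∞) + 3) * surv A (ff v) (μ + 2) ≤ s := by
    intro v
    refine le_trans ?_ ((ENNReal.sum_le_tsum (Finset.range (μ + 3))).trans (hs v))
    have := Finset.card_nsmul_le_sum (Finset.range (μ + 3)) (surv A (ff v)) _ fun m hm =>
      surv_anti A (ff v) (show m ≤ μ + 2 by have := Finset.mem_range.1 hm; omega)
    simpa using this
  have h4 : c ≤ ∑ v, surv A (ff v) (μ + 2) + ∑ v, ∑' x, A.init x * bad A x v := by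
    rw [← Finset.sum_add_distrib]
    exact le_trans (by simp [hc]) (Finset.sum_le_sum fun v _ => h1 v)
  have h5 : ((μ : ℝ≥0∞) + 3) * ∑ v, surv A (ff v) (μ + 2) ≤ c * s := by
    rw [Finset.mul_sum]
    exact (Finset.sum_le_card_nsmul _ _ s fun v _ => h3 v).trans (by simp [hc])
  have hc0 : c ≠ 0 := by simp [hc, NeZero.ne N]
  have hc1 : c ≠ ⊤ := ENNReal.natCast_ne_top _
  rw [← ENNReal.mul_le_mul_iff_right hc0 hc1]
  calc c * (((μ : ℝ≥0∞) + 3) * N) = (μ + 3) * N * c := by ring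
    _ ≤ (μ + 3) * N * (∑ v, surv A (ff v) (μ + 2) + ∑ v, ∑' x, A.init x * bad A x v) := by gcongr
    _ = N * ((μ + 3) * ∑ v, surv A (ff v) (μ + 2)) +
        (μ + 3) * (N * ∑ v, ∑' x, A.init x * bad A x v) := by ring
    _ ≤ N * (c * s) + (μ + 3) * ((2 * μ + 3) * c) := by gcongr
    _ = _ := by ring

/-- query all shares, then the optimum -/
noncomputable def good : Alg (ZMod N ⊕ Fin (μ + 1)) (μ + 1) where
  init := PMF.pure Sum.inr
  step X := PMF.pure (.inl (X.map fun p => ((⌊-p.2⌋₊ : ℕ) : ZMod N)).sum)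
  rem Y := PMF.pure (if h : Y ≠ 0 then (Multiset.exists_mem_of_ne_zero h).choose else (.inr 0, 0))
  rem_mem Y h r hr := by
    rw [PMF.support_pure, Set.mem_singleton_iff, dif_pos h] at hr
    rw [hr]; exact (Multiset.exists_mem_of_ne_zero h).choose_spec

lemma upper (v : Fin (μ + 1) → ZMod N) : ET good (ff v) ≤ μ + 2 := by
  have h0 : surv good (ff v) (μ + 2) = 0 := by
    refine le_antisymm (avg_le _ _ _ fun x hx => ?_) zero_le
    have hx : x = Sum.inr := by
      by_contra h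
      exact hx (PMF.pure_apply_of_ne _ _ h)
    subst hx
    split_ifs
    · rw [show μ + 2 - (μ + 1) = 0 + 1 by omega, miss]
      refine avg_le _ _ _ fun y hy => ?_
      rw [if_pos]
      rw [opt_iff]
      by_contra h
      refine hy (PMF.pure_apply_of_ne _ _ fun h2 => h ?_)
      rw [h2]
      have : ∀ (g : ZMod N ⊕ Fin (μ + 1) → ℝ) (x : Fin (μ + 1) → ZMod N ⊕ Fin (μ + 1)),
          mem g x = Finset.univ.val.map fun i => (x i, g (x i)) := fun g x => by
        rw [← Multiset.sum_map_singleton (Finset.univ.val.map _), Multiset.map_map]; rfl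
      rw [this, Multiset.map_map]
      congr 1
      refine Finset.sum_congr rfl fun i _ => ?_
      simp only [Function.comp, ff, reduceCtorEq, if_false, f0, neg_neg, Nat.floor_natCast,
        ZMod.natCast_zmod_val]
    · rfl
  rw [ET, tsum_eq_sum (s := Finset.range (μ + 2)) fun m hm => le_antisymm
    (h0 ▸ surv_anti _ _ (by simpa using hm)) zero_le]
  exact (Finset.sum_le_card_nsmul _ _ 1 fun m _ => surv_le _ _ m).trans (by simp)
end

theorem result (μ : ℕ) : ∃ (S : Type) (_ : Finite S) (F : Set (S → ℝ)), C (μ + 1) F < C μ F := by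
  set K := (μ + 3) * (2 * μ + 3) with hK
  haveI : NeZero (2 * K) := ⟨by positivity⟩
  refine ⟨ZMod (2 * K) ⊕ Fin (μ + 1), inferInstance, Set.range ff, ?_⟩
  have h1 : C (μ + 1) (Set.range (ff (μ := μ) (N := 2 * K))) ≤ μ + 2 :=
    (iInf_le _ good).trans (iSup₂_le fun f ⟨v, hv⟩ => hv ▸ upper v)
  refine h1.trans_lt (lt_of_lt_of_le (b := ((μ : ℝ≥0∞) + 2) + 1 / 2) ?_ (le_iInf fun A => ?_))
  · exact ENNReal.lt_add_right (by simp) (by simp)
  · set s := ⨆ f ∈ Set.range (ff (μ := μ) (N := 2 * K)), ET A f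
    have := lower A s fun v => le_iSup₂_of_le (f := fun f _ => ET A f) (ff v) ⟨v, rfl⟩ le_rfl
    have hK' : ((μ : ℝ≥0∞) + 3) * (2 * μ + 3) = K := by rw [hK]; push_cast; rfl
    have hK0 : (K : ℝ≥0∞) ≠ 0 := by rw [← hK']; simp
    rw [hK'] at this
    push_cast at this
    have h2 : (K : ℝ≥0∞) * (2 * (μ + 2 + 1 / 2) + 1) ≤ K * (2 * s + 1) := by
      have e : (2 : ℝ≥0∞) * (1 / 2) = 1 := by
        rw [one_div, ENNReal.mul_inv_cancel (by simp) (by simp)]
      calc _ = ((μ : ℝ≥0∞) + 3) * (2 * K) := by rw [mul_add 2, e]; ring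
        _ ≤ _ := this
        _ = _ := by ring
    rw [ENNReal.mul_le_mul_iff_right hK0 (ENNReal.natCast_ne_top _),
      ENNReal.add_le_add_iff_right (by simp), ENNReal.mul_le_mul_iff_right (by simp) (by simp)] at h2
    exact h2

end Pool.Agent.Results.MP_baa74b_lc.Strict
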